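import Pool.Agent.Lib.MP_0e3b4a_gt.Iface

/-! # NDIF: differentiability of the normal exponential map -/

set_option autoImplicit false

namespace Pool.Agent.CutLoci.H75

open MeasureTheory Set Filter Topology

variable {g : Type} [NormedAddCommGroup g] [NormedSpace ℝ g] [FiniteDimensional ℝ g] {r : ℕ}

/-- The solutions of `u = N (u, l)` are the normal controls with covector `l`. -/
theorem normal_of_eq (C : Carnot g r) (N : Ctl r × (g →L[ℝ] ℝ) → Ctl r)
    (hN : ∀ (u : Ctl r) (l : g →L[ℝ] ℝ), ∀ᵐ t ∂(volume.restrict (Ioc (0 : ℝ) 1)), ∀ a,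
      inner ℝ (N (u, l) t) a = l (C.Ad u t (C.X a))) (u : Ctl r) (l : g →L[ℝ] ℝ) :
    N (u, l) = u ↔ C.Normal u l := by
  constructor
  · intro h
    unfold Carnot.Normal
    filter_upwards [hN u l] with t ht a
    rw [← ht, h]
  · intro h
    apply Lp.ext
    filter_upwards [hN u l, h] with t ht ht' 
    refine ext_inner_right ℝ fun a => ?_
    rw [ht, ht']

/-- NDIF. -/
theorem ndif (nmap : NmapStatement g r) (vinv : VinvStatement) (nuni : NuniStatement g r)
    (strd : StrdStatement g r) : NdifStatement g r := by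
  intro C u0 l0 hnorm
  obtain ⟨N, hNc, hN, hNV⟩ := nmap C
  have hiff := normal_of_eq C N hN
  -- the map
  set F : Ctl r × (g →L[ℝ] ℝ) → Ctl r × (g →L[ℝ] ℝ) := fun p => (p.1 - N p, p.2) with hF
  have hNd : HasStrictFDerivAt N (fderiv ℝ N (u0, l0)) (u0, l0) :=
    hNc.contDiffAt.hasStrictFDerivAt (by norm_num)
  set N' := fderiv ℝ N (u0, l0) with hN'
  set T : Ctl r →L[ℝ] Ctl r := N'.comp (ContinuousLinearMap.inl ℝ (Ctl r) (g →L[ℝ] ℝ)) with hT
  obtain ⟨M, hM⟩ := hNV u0 l0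
  have hbij : Function.Bijective (ContinuousLinearMap.id ℝ (Ctl r) - T) := by
    apply vinv r T M
    intro v
    exact hM v
  set F' : Ctl r × (g →L[ℝ] ℝ) →L[ℝ] Ctl r × (g →L[ℝ] ℝ) :=
    (ContinuousLinearMap.fst ℝ (Ctl r) (g →L[ℝ] ℝ) - N').prod
      (ContinuousLinearMap.snd ℝ (Ctl r) (g →L[ℝ] ℝ)) with hF'
  have hFd : HasStrictFDerivAt F F' (u0, l0) :=
    (hasStrictFDerivAt_fst.sub hNd).prodMk hasStrictFDerivAt_snd
  have hsplit : ∀ (v : Ctl r) (m : g →L[ℝ] ℝ), N' (v, m) = T v + N' (0, m) := by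
    intro v m
    rw [hT, ContinuousLinearMap.comp_apply, ContinuousLinearMap.inl_apply, ← map_add]
    simp
  have hF'v : ∀ (v : Ctl r) (m : g →L[ℝ] ℝ), F' (v, m) =
      ((ContinuousLinearMap.id ℝ (Ctl r) - T) v - N' (0, m), m) := by
    intro v m
    rw [hF', ContinuousLinearMap.prod_apply]
    refine Prod.ext ?_ rfl
    change v - N' (v, m) = v - T v - N' (0, m)
    rw [hsplit]
    abel
  have hFbij : Function.Bijective F' := by
    constructor
    · rintro ⟨v, m⟩ ⟨v', m'⟩ h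
      rw [hF'v, hF'v, Prod.mk.injEq] at h
      obtain ⟨h1, h2⟩ := h
      subst h2
      have := hbij.1 (sub_left_injective h1)
      rw [this]
    · rintro ⟨w, m⟩
      obtain ⟨v, hv⟩ := hbij.2 (w + N' (0, m))
      refine ⟨(v, m), ?_⟩
      rw [hF'v, hv]
      simp
  set e : (Ctl r × (g →L[ℝ] ℝ)) ≃L[ℝ] (Ctl r × (g →L[ℝ] ℝ)) :=
    ContinuousLinearEquiv.ofBijective F' (LinearMap.ker_eq_bot.2 hFbij.1)
      (LinearMap.range_eq_top.2 hFbij.2) with he
  have hFe : HasStrictFDerivAt F (e : Ctl r × (g →L[ℝ] ℝ) →L[ℝ] Ctl r × (g →L[ℝ] ℝ)) (u0, l0) := by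
    rw [he, ContinuousLinearEquiv.coe_ofBijective]
    exact hFd
  set inv := hFe.localInverse F e (u0, l0) with hinv
  have hF0 : F (u0, l0) = (0, l0) := by
    rw [hF]
    simp only [(hiff u0 l0).2 hnorm, sub_self]
  have hid : HasStrictFDerivAt inv (e.symm : _ →L[ℝ] _) (0, l0) := by
    have := hFe.to_localInverse
    rw [hF0] at this
    exact this
  have hright : ∀ᶠ y in 𝓝 ((0, l0) : Ctl r × (g →L[ℝ] ℝ)), F (inv y) = y := by
    have := hFe.eventually_right_inverse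
    rw [hF0] at this
    exact this
  have hcont : Tendsto (fun l : g →L[ℝ] ℝ => ((0, l) : Ctl r × (g →L[ℝ] ℝ))) (𝓝 l0)
      (𝓝 (0, l0)) := by
    have : Continuous (fun l : g →L[ℝ] ℝ => ((0, l) : Ctl r × (g →L[ℝ] ℝ))) := by fun_prop
    exact this.tendsto l0
  have hev : ∀ᶠ l in 𝓝 l0, C.Normal (inv (0, l)).1 l := by
    filter_upwards [hcont.eventually hright] with l hl
    rw [hF] at hl
    simp only [Prod.mk.injEq] at hl
    obtain ⟨h1, h2⟩ := hl
    have h3 : N ((inv (0, l)).1, l) = (inv (0, l)).1 := by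
      have h4 : ((inv (0, l)).1, l) = inv (0, l) := Prod.ext rfl h2.symm
      rw [h4]
      exact (sub_eq_zero.1 h1).symm
    exact (hiff _ l).1 h3
  have heq : ∀ᶠ l in 𝓝 l0, C.nexpE l = C.End (inv (0, l)).1 := by
    filter_upwards [hev] with l hl
    have hex : ∃ u : Ctl r, C.Normal u l := ⟨_, hl⟩
    unfold Carnot.nexpE
    rw [dif_pos hex, nuni C hex.choose (inv (0, l)).1 l hex.choose_spec hl]
  have hdiff : DifferentiableAt ℝ (fun l : g →L[ℝ] ℝ => C.End (inv (0, l)).1) l0 := by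
    have h1 : DifferentiableAt ℝ (fun l : g →L[ℝ] ℝ => ((0, l) : Ctl r × (g →L[ℝ] ℝ))) l0 := by
      fun_prop
    have h2 : DifferentiableAt ℝ inv ((fun l : g →L[ℝ] ℝ => ((0, l) : Ctl r × (g →L[ℝ] ℝ))) l0) :=
      hid.hasFDerivAt.differentiableAt
    have h3 : DifferentiableAt ℝ (fun l : g →L[ℝ] ℝ => (inv (0, l)).1) l0 :=
      (h2.comp l0 h1).fst
    have h4 : Differentiable ℝ (fun u : Ctl r => C.End u) := (strd C).1.differentiable (by norm_num)
    exact (h4 _).comp l0 h3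
  exact hdiff.congr_of_eventuallyEq heq

end Pool.Agent.CutLoci.H75
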