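import Pool.Agent.Lib.MP_0e3b4a_gt.Iface

/-! # The vector representing `a ↦ l (Ad_t X a)` and the first variation with covectors -/

set_option autoImplicit false

namespace Pool.Agent.CutLoci.H75

open MeasureTheory Set Filter Topology

variable {g : Type} [NormedAddCommGroup g] [NormedSpace ℝ g] [FiniteDimensional ℝ g] {r : ℕ}

theorem ctl_integrable (u : Ctl r) : IntegrableOn (u : ℝ → EE r) (Ioc 0 1) :=
  (Lp.memLp u).integrable (by norm_num)

/-- The vector representing `a ↦ l (Ad_t X a)`. -/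
noncomputable def nvec (C : Carnot g r) (u : ℝ → EE r) (l : g →L[ℝ] ℝ) (t : ℝ) : EE r :=
  (InnerProductSpace.toDual ℝ (EE r)).symm ((l.comp (C.Ad u t)).comp C.X)

theorem inner_nvec (C : Carnot g r) (u : ℝ → EE r) (l : g →L[ℝ] ℝ) (t : ℝ) (a : EE r) :
    inner ℝ (nvec C u l t) a = l (C.Ad u t (C.X a)) := by
  unfold nvec
  rw [InnerProductSpace.toDual_symm_apply]
  rfl

theorem nvec_continuousOn (C : Carnot g r) (u : ℝ → EE r) (l : g →L[ℝ] ℝ)
    (hA : ContinuousOn (C.Ad u) (Icc 0 1)) : ContinuousOn (nvec C u l) (Icc 0 1) := by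
  unfold nvec
  apply (InnerProductSpace.toDual ℝ (EE r)).symm.continuous.comp_continuousOn
  exact (continuousOn_const.clm_comp hA).clm_comp continuousOn_const

/-- A continuous function cut off by a measurable set, as a control. -/
theorem exists_ctl (n : ℝ → EE r) (hn : ContinuousOn n (Icc 0 1)) (S : Set ℝ)
    (hS : MeasurableSet S) : ∃ x : Ctl r,
      (x : ℝ → EE r) =ᵐ[volume.restrict (Ioc (0 : ℝ) 1)] S.indicator n := by
  obtain ⟨M, hM⟩ := isCompact_Icc.exists_bound_of_continuousOn hn
  have hmeas : AEStronglyMeasurable n (volume.restrict (Ioc (0 : ℝ) 1)) :=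
    (hn.mono Ioc_subset_Icc_self).aestronglyMeasurable measurableSet_Ioc
  have hm : MemLp (S.indicator n) 2 (volume.restrict (Ioc (0 : ℝ) 1)) := by
    refine MemLp.of_bound (hmeas.indicator hS) M ?_
    filter_upwards [ae_restrict_mem measurableSet_Ioc] with t ht
    by_cases h : t ∈ S
    · rw [indicator_of_mem h]
      exact hM t (Ioc_subset_Icc_self ht)
    · rw [indicator_of_notMem h, norm_zero]
      exact le_trans (norm_nonneg _) (hM t (Ioc_subset_Icc_self ht))
  exact ⟨hm.toLp _, hm.coeFn_toLp⟩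

theorem adX_integrable (C : Carnot g r) (u : ℝ → EE r) (hA : ContinuousOn (C.Ad u) (Icc 0 1))
    (x : ℝ → EE r) (hx : IntegrableOn x (Ioc 0 1)) :
    IntegrableOn (fun t => C.Ad u t (C.X (x t))) (Ioc 0 1) := by
  obtain ⟨M, hM⟩ := isCompact_Icc.exists_bound_of_continuousOn hA
  have hmeas : AEStronglyMeasurable (C.Ad u) (volume.restrict (Ioc (0 : ℝ) 1)) :=
    (hA.mono Ioc_subset_Icc_self).aestronglyMeasurable measurableSet_Ioc
  have h1 : IntegrableOn (fun t => M * ‖C.X (x t)‖) (Ioc 0 1) :=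
    ((C.X.integrable_comp hx).norm).const_mul M
  refine Integrable.mono' h1 ?_ ?_
  · exact (ContinuousLinearMap.id ℝ (g →L[ℝ] g)).aestronglyMeasurable_comp₂ hmeas
      (C.X.continuous.comp_aestronglyMeasurable hx.1)
  · filter_upwards [ae_restrict_mem measurableSet_Ioc] with t ht
    exact le_trans (ContinuousLinearMap.le_opNorm _ _)
      (mul_le_mul_of_nonneg_right (hM t (Ioc_subset_Icc_self ht)) (norm_nonneg _))

theorem l_W (C : Carnot g r) (u : ℝ → EE r) (hA : ContinuousOn (C.Ad u) (Icc 0 1))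
    (l : g →L[ℝ] ℝ) (x : Ctl r) :
    l (C.W u x 1) = ∫ t in Ioc (0 : ℝ) 1, inner ℝ (nvec C u l t) (x t) := by
  unfold Carnot.W
  rw [intervalIntegral.integral_of_le zero_le_one,
    ← ContinuousLinearMap.integral_comp_comm l (adX_integrable C u hA x (ctl_integrable x))]
  apply integral_congr_ae
  filter_upwards with t
  rw [inner_nvec]

/-- RANGE. -/
theorem range (struc : StrucStatement g r) : RangeStatement g r := by
  intro C u l a b ha hab hb
  obtain ⟨-, hA, -⟩ := struc C u (ctl_integrable u)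
  constructor
  · intro h t ht c
    have hnc : ContinuousOn (nvec C u l) (Icc 0 1) := nvec_continuousOn C u l hA
    obtain ⟨x, hx⟩ := exists_ctl (nvec C u l) hnc (Ioo a b) measurableSet_Ioo
    have h1 : l (C.W u x 1) = 0 := by
      apply h x
      filter_upwards [hx] with t ht hti
      rw [ht, indicator_of_notMem hti]
    rw [l_W C u hA] at h1
    have h2 : ∫ t in Ioc (0 : ℝ) 1, (Ioo a b).indicator (fun t => ‖nvec C u l t‖ ^ 2) t = 0 := by
      refine Eq.trans ?_ h1
      apply integral_congr_ae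
      filter_upwards [hx] with t ht
      rw [ht]
      by_cases hti : t ∈ Ioo a b
      · rw [indicator_of_mem hti, indicator_of_mem hti, real_inner_self_eq_norm_sq]
      · rw [indicator_of_notMem hti, indicator_of_notMem hti, inner_zero_right]
    have hsub : Ioo a b ⊆ Ioc 0 1 := fun s hs => ⟨lt_of_le_of_lt ha hs.1, le_trans hs.2.le hb⟩
    rw [integral_indicator measurableSet_Ioo, Measure.restrict_restrict measurableSet_Ioo,
      inter_eq_self_of_subset_left hsub] at h2
    have hcont : ContinuousOn (fun t => ‖nvec C u l t‖ ^ 2) (Icc a b) :=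
      ((hnc.mono (Icc_subset_Icc ha hb)).norm).pow 2
    have h3 : ∀ s ∈ Icc a b, ‖nvec C u l s‖ ^ 2 = 0 := by
      have hint : IntervalIntegrable (fun t => ‖nvec C u l t‖ ^ 2) volume a b :=
        (hcont.mono (by rw [uIcc_of_le hab.le])).intervalIntegrable
      by_contra hne
      simp only [not_forall] at hne
      obtain ⟨s, hs, hsne⟩ := hne
      have hpos : 0 < ∫ t in a..b, ‖nvec C u l t‖ ^ 2 := by
        apply intervalIntegral.integral_pos hab hcont (fun t _ => by positivity)
        exact ⟨s, hs, lt_of_le_of_ne (by positivity) (Ne.symm hsne)⟩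
      rw [intervalIntegral.integral_of_le hab.le, integral_Ioc_eq_integral_Ioo, h2] at hpos
      exact lt_irrefl _ hpos
    have h4 : nvec C u l t = 0 := by
      have := h3 t ht
      exact norm_eq_zero.1 (pow_eq_zero_iff (two_ne_zero) |>.1 this)
    rw [← inner_nvec, h4, inner_zero_left]
  · intro h x hx
    rw [l_W C u hA]
    rw [integral_eq_zero_of_ae]
    filter_upwards [hx] with t ht
    by_cases hti : t ∈ Ioo a b
    · rw [inner_nvec]
      exact h t (Ioo_subset_Icc_self hti) _
    · rw [ht hti, inner_zero_right]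
      rfl

/-- NFUN. -/
theorem nfun (struc : StrucStatement g r) (bili : BiliStatement g r) : NfunStatement g r := by
  intro C u
  obtain ⟨-, hA, -⟩ := struc C u (ctl_integrable u)
  constructor
  · intro h
    obtain ⟨⟨L, hL⟩, -⟩ := bili C u
    have hL1 : ∀ x : Ctl r, L 1 x = C.W u x 1 := hL 1 ⟨zero_le_one, le_rfl⟩
    obtain ⟨l0, hl0⟩ : ∃ l0 : g →ₗ[ℝ] ℝ, ∀ x : Ctl r, inner ℝ u x = l0 (L 1 x) := by
      have hker : LinearMap.ker (L 1 : Ctl r →ₗ[ℝ] g) ≤
          LinearMap.ker ((innerSL ℝ u : Ctl r →L[ℝ] ℝ) : Ctl r →ₗ[ℝ] ℝ) := by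
        intro x hx
        rw [LinearMap.mem_ker] at hx ⊢
        have hx' : L 1 x = 0 := hx
        have : C.Ker u x := by
          unfold Carnot.Ker
          rw [← hL1, hx']
        exact h x this
      obtain ⟨l0, hl0⟩ := LinearMap.exists_extend
        ((LinearMap.ker (L 1 : Ctl r →ₗ[ℝ] g)).liftQ _ hker ∘ₗ
          (L 1 : Ctl r →ₗ[ℝ] g).quotKerEquivRange.symm.toLinearMap)
      refine ⟨l0, fun x => ?_⟩
      have h1 := LinearMap.congr_fun hl0
        ((L 1 : Ctl r →ₗ[ℝ] g).rangeRestrict x)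
      have h2 : l0 (L 1 x) = ((LinearMap.ker (L 1 : Ctl r →ₗ[ℝ] g)).liftQ
          ((innerSL ℝ u : Ctl r →L[ℝ] ℝ) : Ctl r →ₗ[ℝ] ℝ) hker)
            ((L 1 : Ctl r →ₗ[ℝ] g).quotKerEquivRange.symm
              ((L 1 : Ctl r →ₗ[ℝ] g).rangeRestrict x)) := h1
      rw [h2]
      have h3 : (L 1 : Ctl r →ₗ[ℝ] g).quotKerEquivRange.symm
          ((L 1 : Ctl r →ₗ[ℝ] g).rangeRestrict x) = Submodule.Quotient.mk x := by
        rw [LinearEquiv.symm_apply_eq]
        rfl
      rw [h3]
      rfl
    refine ⟨LinearMap.toContinuousLinearMap l0, ?_⟩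
    set l : g →L[ℝ] ℝ := LinearMap.toContinuousLinearMap l0 with hl
    have hnc := nvec_continuousOn C u l hA
    obtain ⟨n, hn⟩ := exists_ctl (nvec C u l) hnc univ MeasurableSet.univ
    rw [indicator_univ] at hn
    have key : u = n := by
      refine ext_inner_right ℝ fun x => ?_
      rw [hl0 x, hL1]
      have h1 := l_W C u hA l x
      have h2 : l (C.W u x 1) = l0 (C.W u x 1) := rfl
      rw [← h2, h1, L2.inner_def]
      apply integral_congr_ae
      filter_upwards [hn] with t ht
      rw [ht]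
    unfold Carnot.Normal
    have hn' : (u : ℝ → EE r) =ᵐ[volume.restrict (Ioc (0 : ℝ) 1)] nvec C u l := by
      have : (u : ℝ → EE r) =ᵐ[volume.restrict (Ioc (0 : ℝ) 1)] n := by rw [key]
      exact this.trans hn
    filter_upwards [hn'] with t ht a
    rw [ht, inner_nvec]
  · intro l hl x
    rw [l_W C u hA, L2.inner_def]
    apply integral_congr_ae
    filter_upwards [hl] with t ht
    rw [ht, inner_nvec]

end Pool.Agent.CutLoci.H75
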