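import Pool.Agent.Lib.MP_0e3b4a_gt.Iface

/-! # STRD: the endpoint map is `C¹` and its strict derivative -/

set_option autoImplicit false

namespace Pool.Agent.CutLoci.H75

open MeasureTheory Set Filter Topology
open scoped BoundedContinuousFunction

variable {g : Type} [NormedAddCommGroup g] [NormedSpace ℝ g] [FiniteDimensional ℝ g] {r : ℕ}

/-- The image of the origin as a continuous linear map. -/
noncomputable def orgL (g : Type) [NormedAddCommGroup g] [NormedSpace ℝ g] :
    Carnot.Aff g →L[ℝ] g :=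
  (ContinuousLinearMap.fst ℝ g ℝ).comp (ContinuousLinearMap.apply ℝ (g × ℝ) ((0, 1) : g × ℝ))

omit [FiniteDimensional ℝ g] in
theorem orgL_apply (T : Carnot.Aff g) : orgL g T = Carnot.org T := rfl

/-- The endpoint map is of class `C²`. -/
theorem end_contDiff (expa : ExpaStatement) (nilp : NilpStatement g r) (C : Carnot g r) :
    ContDiff ℝ 2 (fun u : Ctl r => C.End u) := by
  obtain ⟨Φ, hΦ, hval, -⟩ := expa r (Carnot.Aff g) C.R (C.s + 1) (nilp C).1
  have h1 : (fun u : Ctl r => C.End u) =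
      fun u : Ctl r => orgL g (BoundedContinuousFunction.evalCLM ℝ (1 : ℝ) (Φ u)) := by
    funext u
    rw [orgL_apply]
    unfold Carnot.End Carnot.Gam
    have : (BoundedContinuousFunction.evalCLM ℝ (1 : ℝ)) (Φ u) = Φ u 1 := rfl
    rw [this, hval]
    simp
  rw [h1]
  have h3 : ContDiff ℝ 2 (fun u : Ctl r =>
      (BoundedContinuousFunction.evalCLM ℝ (1 : ℝ) : (ℝ →ᵇ Carnot.Aff g) →L[ℝ] Carnot.Aff g)
        (Φ u)) :=
    ContDiff.comp (ContinuousLinearMap.contDiff _) hΦ
  exact (orgL g).contDiff.comp h3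

/-- STRD. -/
theorem strd (expa : ExpaStatement) (nilp : NilpStatement g r) (expb : ExpbStatement g r) :
    StrdStatement g r := by
  intro C
  have h2 := end_contDiff expa nilp C
  have h1 : ContDiff ℝ 1 (fun u : Ctl r => C.End u) := h2.of_le (by norm_num)
  refine ⟨h1, fun u => ?_⟩
  have hs : HasStrictFDerivAt (fun v : Ctl r => C.End v)
      (fderiv ℝ (fun v : Ctl r => C.End v) u) u :=
    h1.contDiffAt.hasStrictFDerivAt (by norm_num)
  refine ⟨fderiv ℝ (fun v : Ctl r => C.End v) u, hs, fun x => ?_⟩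
  obtain ⟨G, hG, hexp, -⟩ := expb C u
  have hline : HasDerivAt (fun δ : ℝ => C.End (u + δ • x : Ctl r))
      (fderiv ℝ (fun v : Ctl r => C.End v) u x) 0 := by
    have hl : HasDerivAt (fun δ : ℝ => u + δ • x) x 0 := by
      simpa using ((hasDerivAt_id (0 : ℝ)).smul_const x).const_add u
    have hf : HasFDerivAt (fun v : Ctl r => C.End v)
        (fderiv ℝ (fun v : Ctl r => C.End v) u) (u + (0 : ℝ) • x) := by
      simpa using hs.hasFDerivAt
    exact hf.comp_hasDerivAt (0 : ℝ) hl
  have hline2 : HasDerivAt (fun δ : ℝ => C.End (u + δ • x : Ctl r))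
      (C.kap (C.End u) (C.W u x 1)) 0 := by
    have he : (fun δ : ℝ => C.End (u + δ • x : Ctl r)) = fun δ : ℝ =>
      C.End u + δ • C.kap (C.End u) (C.W u x 1) + δ ^ 2 • G (δ, x) := by
      funext δ
      exact hexp δ x
    rw [he]
    have hGd : HasDerivAt (fun δ : ℝ => G (δ, x)) (deriv (fun δ : ℝ => G (δ, x)) 0) 0 := by
      apply DifferentiableAt.hasDerivAt
      have : Differentiable ℝ G := hG.differentiable (by norm_num)
      exact (this (0, x)).comp (0 : ℝ) (by fun_prop)
    have ha := (((hasDerivAt_id (0 : ℝ)).smul_const (C.kap (C.End u) (C.W u x 1))).const_add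
      (C.End u)).add (((hasDerivAt_id (0 : ℝ)).pow 2).smul hGd)
    have hb : HasDerivAt (fun δ : ℝ =>
        C.End u + δ • C.kap (C.End u) (C.W u x 1) + δ ^ 2 • G (δ, x)) _ 0 := ha
    simpa using hb
  exact hline.unique hline2

end Pool.Agent.CutLoci.H75
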