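import Pool.Agent.Lib.MP_0e3b4a_gt.Iface3
import Pool.Agent.Lib.MP_0e3b4a_gt.H30.Gron

/-! # TRAJ: trajectories of affine vector fields -/

set_option autoImplicit false
set_option linter.unusedSectionVars false

namespace Pool.Agent.CutLoci.H75T

open MeasureTheory Set Filter Topology

/-! ### Substitution for absolutely continuous functions -/

section AC

variable {E : Type*} [NormedAddCommGroup E] [NormedSpace ℝ E]

theorem ii {f : ℝ → E} (hf : IntegrableOn f (Ioc 0 1)) {t : ℝ} (ht : t ∈ Icc (0 : ℝ) 1) :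
    IntervalIntegrable f volume 0 t := by
  rw [intervalIntegrable_iff_integrableOn_Ioc_of_le ht.1]
  exact hf.mono_set (Ioc_subset_Ioc_right ht.2)

theorem cont_prim {f : ℝ → E} (hf : IntegrableOn f (Ioc 0 1)) :
    ContinuousOn (fun t => ∫ s in (0 : ℝ)..t, f s) (Icc 0 1) := by
  have h := intervalIntegral.continuousOn_primitive_interval (μ := volume) (f := f) (a := (0 : ℝ))
    (b := 1) (by
      rw [uIcc_of_le zero_le_one, integrableOn_Icc_iff_integrableOn_Ioc]
      exact hf)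
  rwa [uIcc_of_le zero_le_one] at h

/-- Comparison. -/
theorem ac_of_dist_le {X Y : Type*} [PseudoMetricSpace X] [PseudoMetricSpace Y] {f : ℝ → X}
    {g : ℝ → Y} {a b K : ℝ} (hK : 0 ≤ K) (hg : AbsolutelyContinuousOnInterval g a b)
    (h : ∀ x ∈ uIcc a b, ∀ y ∈ uIcc a b, dist (f x) (f y) ≤ K * dist (g x) (g y)) :
    AbsolutelyContinuousOnInterval f a b := by
  rw [absolutelyContinuousOnInterval_iff] at hg ⊢
  intro ε hε
  obtain ⟨δ, hδ, h1⟩ := hg (ε / (K + 1)) (by positivity)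
  refine ⟨δ, hδ, fun I hI hlt => ?_⟩
  have h2 := h1 I hI hlt
  calc ∑ i ∈ Finset.range I.1, dist (f (I.2 i).1) (f (I.2 i).2)
      ≤ ∑ i ∈ Finset.range I.1, K * dist (g (I.2 i).1) (g (I.2 i).2) := by
        refine Finset.sum_le_sum fun i hi => ?_
        exact h _ (hI.1 i hi).1 _ (hI.1 i hi).2
    _ = K * ∑ i ∈ Finset.range I.1, dist (g (I.2 i).1) (g (I.2 i).2) := by
        rw [Finset.mul_sum]
    _ ≤ K * (ε / (K + 1)) := mul_le_mul_of_nonneg_left h2.le hK
    _ < ε := by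
        rw [mul_div_assoc', div_lt_iff₀ (by positivity)]
        nlinarith

theorem ac_prim {f : ℝ → E} (hf : IntegrableOn f (Ioc 0 1)) :
    AbsolutelyContinuousOnInterval (fun t => ∫ s in (0 : ℝ)..t, f s) 0 1 := by
  have hn : IntervalIntegrable (fun s => ‖f s‖) volume 0 1 := ii hf.norm ⟨zero_le_one, le_rfl⟩
  have h0 : AbsolutelyContinuousOnInterval (fun t => ∫ s in (0 : ℝ)..t, ‖f s‖) 0 1 :=
    hn.absolutelyContinuousOnInterval_intervalIntegral left_mem_uIcc
  refine ac_of_dist_le zero_le_one h0 fun x hx y hy => ?_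
  rw [uIcc_of_le zero_le_one] at hx hy
  have h1 : (∫ s in (0 : ℝ)..x, f s) - ∫ s in (0 : ℝ)..y, f s = ∫ s in y..x, f s :=
    intervalIntegral.integral_interval_sub_left (ii hf hx) (ii hf hy)
  have h2 : (∫ s in (0 : ℝ)..x, ‖f s‖) - ∫ s in (0 : ℝ)..y, ‖f s‖ = ∫ s in y..x, ‖f s‖ :=
    intervalIntegral.integral_interval_sub_left (ii hf.norm hx) (ii hf.norm hy)
  rw [one_mul, dist_eq_norm, Real.dist_eq, h1, h2]
  exact intervalIntegral.norm_integral_le_abs_integral_norm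

variable [CompleteSpace E]

/-- Substitution. -/
theorem subst {θ : ℝ → ℝ} (hθ : IntegrableOn θ (Ioc 0 1)) {G : ℝ → E} (hG : Continuous G) :
    IntegrableOn (fun s => θ s • G (∫ p in (0 : ℝ)..s, θ p)) (Ioc 0 1) ∧
    ∀ t ∈ Icc (0 : ℝ) 1, ∫ s in (0 : ℝ)..t, θ s • G (∫ p in (0 : ℝ)..s, θ p) =
      ∫ σ in (0 : ℝ)..(∫ p in (0 : ℝ)..t, θ p), G σ := by
  set φ : ℝ → ℝ := fun t => ∫ p in (0 : ℝ)..t, θ p with hφ
  have hφc : ContinuousOn φ (Icc 0 1) := cont_prim hθ
  have hint : IntegrableOn (fun s => θ s • G (φ s)) (Ioc 0 1) := by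
    have hc : ContinuousOn (fun s => G (φ s)) (Icc 0 1) := hG.comp_continuousOn hφc
    have hθ' := hθ
    rw [← integrableOn_Icc_iff_integrableOn_Ioc] at hθ' ⊢
    exact hθ'.smul_continuousOn hc isCompact_Icc
  refine ⟨hint, ?_⟩
  set J : ℝ → E := fun τ => ∫ σ in (0 : ℝ)..τ, G σ with hJ
  have hJd : ∀ τ, HasDerivAt J (G τ) τ := fun τ => hG.integral_hasStrictDerivAt 0 τ |>.hasDerivAt
  -- `J ∘ φ` is absolutely continuous
  obtain ⟨M, hM⟩ := (isCompact_Icc.image_of_continuousOn hφc).isBounded.exists_norm_le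
  obtain ⟨K, hK⟩ := (isCompact_Icc (a := -M) (b := M)).exists_bound_of_continuousOn
    hG.continuousOn
  have hacφ : AbsolutelyContinuousOnInterval φ 0 1 := ac_prim hθ
  have hacJ : AbsolutelyContinuousOnInterval (fun t => J (φ t)) 0 1 := by
    refine ac_of_dist_le (K := max K 0) (le_max_right _ _) hacφ fun x hx y hy => ?_
    rw [uIcc_of_le zero_le_one] at hx hy
    have hx' : φ x ∈ Icc (-M) M := by
      have := hM (φ x) ⟨x, hx, rfl⟩
      rw [Real.norm_eq_abs, abs_le] at this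
      exact this
    have hy' : φ y ∈ Icc (-M) M := by
      have := hM (φ y) ⟨y, hy, rfl⟩
      rw [Real.norm_eq_abs, abs_le] at this
      exact this
    rw [dist_eq_norm, Real.dist_eq]
    have h1 : J (φ x) - J (φ y) = ∫ σ in (φ y)..(φ x), G σ :=
      intervalIntegral.integral_interval_sub_left (hG.intervalIntegrable _ _)
        (hG.intervalIntegrable _ _)
    rw [h1]
    refine intervalIntegral.norm_integral_le_of_norm_le_const fun σ hσ => ?_
    refine le_trans (hK σ ?_) (le_max_left _ _)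
    have h2 : uIcc (φ y) (φ x) ⊆ Icc (-M) M := uIcc_subset_Icc hy' hx'
    exact h2 (uIoc_subset_uIcc hσ)
  have hacI := ac_prim hint
  have hac := hacJ.sub hacI
  have hd1 := (ii hθ (t := 1) ⟨zero_le_one, le_rfl⟩).ae_hasDerivAt_integral
  have hd2 := (ii hint (t := 1) ⟨zero_le_one, le_rfl⟩).ae_hasDerivAt_integral
  obtain ⟨c, hc⟩ := hac.const_of_ae_hasDerivAt_zero (by
    filter_upwards [hd1, hd2] with s h1 h2 hs
    have h3 : HasDerivAt φ (θ s) s := h1 hs 0 left_mem_uIcc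
    have h4 := h2 hs 0 left_mem_uIcc
    have h5 : HasDerivAt (fun t => J (φ t)) (θ s • G (φ s)) s := (hJd (φ s)).scomp s h3
    have h6 := h5.sub h4
    rw [sub_self] at h6
    exact h6)
  intro t ht
  have h0 := hc 0 left_mem_uIcc
  have h1 := hc t (by rwa [uIcc_of_le zero_le_one])
  simp only [Pi.sub_apply, intervalIntegral.integral_same, sub_zero, hφ, hJ] at h0 h1
  rw [← h0] at h1
  exact (sub_eq_zero.1 h1).symm

end AC

/-! ### Iterated integrals of reparametrized curves -/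

section Iter

variable {r : ℕ} {A : Type} [NormedRing A] [NormedAlgebra ℝ A] [CompleteSpace A]

theorem iter_cont (R : EE r →L[ℝ] A) {c : ℝ → EE r} (hc : Continuous c) (k : ℕ) :
    Continuous (iter R c k) := by
  induction k with
  | zero => exact continuous_const
  | succ k ih =>
    have h1 : Continuous fun s => iter R c k s * R (c s) := ih.mul (R.continuous.comp hc)
    exact intervalIntegral.continuous_primitive (fun a b => h1.intervalIntegrable a b) 0

theorem iter_subst (R : EE r →L[ℝ] A) {c : ℝ → EE r} (hc : Continuous c) (u : ℝ → EE r)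
    (θ : ℝ → ℝ) (hθ : IntegrableOn θ (Ioc 0 1))
    (hu : ∀ᵐ t ∂(volume.restrict (Ioc (0 : ℝ) 1)), u t = θ t • c (∫ s in (0 : ℝ)..t, θ s))
    (k : ℕ) : ∀ t ∈ Icc (0 : ℝ) 1, iter R u k t = iter R c k (∫ s in (0 : ℝ)..t, θ s) := by
  induction k with
  | zero => intro t _; rfl
  | succ k ih =>
    intro t ht
    have h1 : Continuous fun s => iter R c k s * R (c s) :=
      (iter_cont R hc k).mul (R.continuous.comp hc)
    have h2 := (subst hθ h1).2 t ht
    change ∫ s in (0 : ℝ)..t, iter R u k s * R (u s) =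
      ∫ s in (0 : ℝ)..(∫ s in (0 : ℝ)..t, θ s), iter R c k s * R (c s)
    rw [← h2]
    refine intervalIntegral.integral_congr_ae ?_
    rw [uIoc_of_le ht.1]
    rw [ae_restrict_iff' measurableSet_Ioc] at hu
    filter_upwards [hu] with s hs hmem
    have hs1 : s ∈ Ioc (0 : ℝ) 1 := ⟨hmem.1, hmem.2.trans ht.2⟩
    rw [ih s ⟨hs1.1.le, hs1.2⟩, hs hs1, map_smul, mul_smul_comm]

theorem flow_subst (R : EE r →L[ℝ] A) (K : ℕ) {c : ℝ → EE r} (hc : Continuous c)
    (u : ℝ → EE r) (θ : ℝ → ℝ) (hθ : IntegrableOn θ (Ioc 0 1))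
    (hu : ∀ᵐ t ∂(volume.restrict (Ioc (0 : ℝ) 1)), u t = θ t • c (∫ s in (0 : ℝ)..t, θ s)) :
    flow R K u 1 = flow R K (fun s => (∫ s in (0 : ℝ)..1, θ s) •
      c (s * ∫ s in (0 : ℝ)..1, θ s)) 1 := by
  set σ : ℝ := ∫ s in (0 : ℝ)..1, θ s with hσ
  have h1 : (1 : ℝ) ∈ Icc (0 : ℝ) 1 := ⟨zero_le_one, le_rfl⟩
  simp only [flow]
  refine Finset.sum_congr rfl fun k _ => ?_
  rw [iter_subst R hc u θ hθ hu k 1 h1]
  have hci : IntegrableOn (fun _ : ℝ => σ) (Ioc 0 1) := by simp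
  rw [iter_subst R hc (fun s => σ • c (s * σ)) (fun _ => σ) hci ?_ k 1 h1]
  · simp [hσ]
  · refine ae_of_all _ fun t => ?_
    simp

end Iter

/-! ### The affine vector field -/

section Aff

/-- The trajectory of the field through `Y`. -/
noncomputable def cc (N : EE 2 →L[ℝ] EE 2) (Y : EE 2) (τ : ℝ) : EE 2 :=
  NormedSpace.exp (τ • N) Y

theorem cc_deriv (N : EE 2 →L[ℝ] EE 2) (Y : EE 2) (τ : ℝ) :
    HasDerivAt (cc N Y) (N (cc N Y τ)) τ := by
  have h1 : HasDerivAt (fun t : ℝ => NormedSpace.exp (t • N)) (N * NormedSpace.exp (τ • N)) τ :=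
    hasDerivAt_exp_smul_const' N τ
  exact h1.clm_apply (hasDerivAt_const τ Y) |>.congr_deriv (by simp [cc])

theorem cc_cont (N : EE 2 →L[ℝ] EE 2) (Y : EE 2) : Continuous (cc N Y) :=
  continuous_iff_continuousAt.2 fun τ => (cc_deriv N Y τ).continuousAt

theorem cc_zero (N : EE 2 →L[ℝ] EE 2) (Y : EE 2) : cc N Y 0 = Y := by
  have h : (0 : ℝ) • N = 0 := by
    ext a : 1
    exact zero_smul ℝ (N a)
  unfold cc
  rw [h, NormedSpace.exp_zero]
  rfl

theorem cc_eq (N : EE 2 →L[ℝ] EE 2) (Y : EE 2) (τ : ℝ) :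
    cc N Y τ = Y + ∫ σ in (0 : ℝ)..τ, N (cc N Y σ) := by
  have h := intervalIntegral.integral_eq_sub_of_hasDerivAt (a := (0 : ℝ)) (b := τ)
    (f := cc N Y) (f' := fun σ => N (cc N Y σ)) (fun σ _ => cc_deriv N Y σ)
    ((N.continuous.comp (cc_cont N Y)).intervalIntegrable _ _)
  rw [h, cc_zero]
  abel

end Aff

theorem traj (g : Type) [NormedAddCommGroup g] [NormedSpace ℝ g] [FiniteDimensional ℝ g] :
    TrajStatement g := by
  intro C u Y N hne hu
  have hui : IntegrableOn (fun s => (u s : EE 2)) (Ioc 0 1) :=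
    (Lp.memLp u).integrable (by norm_num)
  set x : ℝ → EE 2 := fun t => ∫ s in (0 : ℝ)..t, u s with hx
  set y : ℝ → EE 2 := fun t => Y + N (x t) with hy
  have hxc : ContinuousOn x (Icc 0 1) := cont_prim hui
  have hyc : ContinuousOn y (Icc 0 1) :=
    continuousOn_const.add (N.continuous.comp_continuousOn hxc)
  -- the speed
  set w : ℝ → EE 2 := fun t => (‖y t‖ ^ 2)⁻¹ • y t with hw
  have hwc : ContinuousOn w (Icc 0 1) := by
    have h1 : ContinuousOn (fun t => (‖y t‖ ^ 2)⁻¹) (Icc 0 1) := by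
      refine ContinuousOn.inv₀ (hyc.norm.pow 2) fun t ht => ?_
      exact pow_ne_zero 2 (norm_ne_zero_iff.2 (hne t ht))
    exact h1.smul hyc
  set θ : ℝ → ℝ := fun t => (u t : EE 2) 0 * w t 0 + (u t : EE 2) 1 * w t 1 with hθd
  have hcoord : ∀ i : Fin 2, IntegrableOn (fun t => (u t : EE 2) i * w t i) (Ioc 0 1) := by
    intro i
    have h1 : IntegrableOn (fun t => (u t : EE 2) i) (Ioc 0 1) :=
      (EuclideanSpace.proj (𝕜 := ℝ) i).integrable_comp hui
    have h2 : ContinuousOn (fun t => w t i) (Icc 0 1) :=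
      (EuclideanSpace.proj (𝕜 := ℝ) i).continuous.comp_continuousOn hwc
    rw [← integrableOn_Icc_iff_integrableOn_Ioc] at h1 ⊢
    exact h1.mul_continuousOn h2 isCompact_Icc
  have hθ : IntegrableOn θ (Ioc 0 1) := (hcoord 0).add (hcoord 1)
  have huθ : ∀ᵐ t ∂(volume.restrict (Ioc (0 : ℝ) 1)), (u t : EE 2) = θ t • y t := by
    rw [ae_restrict_iff' measurableSet_Ioc] at hu ⊢
    filter_upwards [hu] with t ht hmem
    obtain ⟨c, hc⟩ := ht hmem
    have hyt : y t ≠ 0 := hne t ⟨hmem.1.le, hmem.2⟩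
    have hc' : (u t : EE 2) = c • y t := hc
    have hny : ‖y t‖ ^ 2 ≠ 0 := pow_ne_zero 2 (norm_ne_zero_iff.2 hyt)
    have hn : ‖y t‖ ^ 2 = y t 0 * y t 0 + y t 1 * y t 1 := by
      rw [EuclideanSpace.norm_sq_eq, Fin.sum_univ_two]
      simp only [Real.norm_eq_abs, sq_abs]
      ring
    have hθt : θ t = c := by
      simp only [hθd, hw, hc', PiLp.smul_apply, smul_eq_mul]
      have : c * y t 0 * ((‖y t‖ ^ 2)⁻¹ * y t 0) + c * y t 1 * ((‖y t‖ ^ 2)⁻¹ * y t 1) =
          c * ((‖y t‖ ^ 2)⁻¹ * (y t 0 * y t 0 + y t 1 * y t 1)) := by ring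
      rw [this, ← hn, inv_mul_cancel₀ hny, mul_one]
    rw [hθt, hc']
  set φ : ℝ → ℝ := fun t => ∫ s in (0 : ℝ)..t, θ s with hφ
  have hφc : ContinuousOn φ (Icc 0 1) := cont_prim hθ
  have hcc := cc_cont N Y
  -- the difference of `y` and `c ∘ φ`
  have hsub := subst hθ (N.continuous.comp hcc)
  have hDc : ContinuousOn (fun t => y t - cc N Y (φ t)) (Icc 0 1) :=
    hyc.sub (hcc.comp_continuousOn hφc)
  have hNy : IntegrableOn (fun s => θ s • N (y s)) (Ioc 0 1) := by
    have hc : ContinuousOn (fun s => N (y s)) (Icc 0 1) := N.continuous.comp_continuousOn hyc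
    have hθ' := hθ
    rw [← integrableOn_Icc_iff_integrableOn_Ioc] at hθ' ⊢
    exact hθ'.smul_continuousOn hc isCompact_Icc
  have hD : ∀ t ∈ Icc (0 : ℝ) 1, y t - cc N Y (φ t) =
      ∫ s in (0 : ℝ)..t, θ s • N (y s - cc N Y (φ s)) := by
    intro t ht
    have h1 : N (x t) = ∫ s in (0 : ℝ)..t, θ s • N (y s) := by
      rw [hx]
      simp only
      rw [← ContinuousLinearMap.intervalIntegral_comp_comm N (ii hui ht)]
      refine intervalIntegral.integral_congr_ae ?_
      rw [uIoc_of_le ht.1]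
      rw [ae_restrict_iff' measurableSet_Ioc] at huθ
      filter_upwards [huθ] with s hs hmem
      rw [hs ⟨hmem.1, hmem.2.trans ht.2⟩, map_smul]
    have h2 : cc N Y (φ t) = Y + ∫ s in (0 : ℝ)..t, θ s • N (cc N Y (φ s)) := by
      rw [cc_eq N Y (φ t)]
      congr 1
      exact (hsub.2 t ht).symm
    have h3 : ∫ s in (0 : ℝ)..t, θ s • N (y s - cc N Y (φ s)) =
        (∫ s in (0 : ℝ)..t, θ s • N (y s)) - ∫ s in (0 : ℝ)..t, θ s • N (cc N Y (φ s)) := by
      refine Eq.trans ?_ (intervalIntegral.integral_sub (ii hNy ht) (ii hsub.1 ht))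
      refine intervalIntegral.integral_congr fun s _ => ?_
      simp only [map_sub, smul_sub]
      try rfl
    rw [h3, h2, ← h1]
    simp only [hy]
    abel
  have hzero : ∀ t ∈ Icc (0 : ℝ) 1, ‖y t - cc N Y (φ t)‖ = 0 := by
    refine H30.gron (fun t => ‖y t - cc N Y (φ t)‖) (fun s => |θ s| * ‖N‖) hDc.norm ?_
      (fun t _ => norm_nonneg _) (fun t _ => by positivity) ?_
    · exact hθ.abs.mul_const _
    · intro t ht
      have hint : IntegrableOn (fun s => ‖y s - cc N Y (φ s)‖ * (|θ s| * ‖N‖)) (Ioc 0 1) := by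
        have h1 : IntegrableOn (fun s => |θ s| * ‖N‖) (Ioc 0 1) := hθ.abs.mul_const _
        rw [← integrableOn_Icc_iff_integrableOn_Ioc] at h1 ⊢
        exact h1.continuousOn_mul hDc.norm isCompact_Icc
      rw [hD t ht]
      refine (intervalIntegral.norm_integral_le_integral_norm ht.1).trans ?_
      have hint2 : IntegrableOn (fun s => ‖θ s • N (y s - cc N Y (φ s))‖) (Ioc 0 1) := by
        have hc : ContinuousOn (fun s => N (y s - cc N Y (φ s))) (Icc 0 1) :=
          N.continuous.comp_continuousOn hDc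
        have hθ' := hθ
        rw [← integrableOn_Icc_iff_integrableOn_Ioc] at hθ' ⊢
        exact (hθ'.smul_continuousOn hc isCompact_Icc).norm
      refine intervalIntegral.integral_mono_on ht.1 (ii hint2 ht) (ii hint ht) fun s _ => ?_
      rw [norm_smul, Real.norm_eq_abs]
      calc |θ s| * ‖N (y s - cc N Y (φ s))‖ ≤ |θ s| * (‖N‖ * ‖y s - cc N Y (φ s)‖) :=
            mul_le_mul_of_nonneg_left (N.le_opNorm _) (abs_nonneg _)
        _ = ‖y s - cc N Y (φ s)‖ * (|θ s| * ‖N‖) := by ring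
  have huc : ∀ᵐ t ∂(volume.restrict (Ioc (0 : ℝ) 1)),
      (u t : EE 2) = θ t • cc N Y (∫ s in (0 : ℝ)..t, θ s) := by
    rw [ae_restrict_iff' measurableSet_Ioc] at huθ ⊢
    filter_upwards [huθ] with t ht hmem
    have h1 := hzero t ⟨hmem.1.le, hmem.2⟩
    rw [norm_eq_zero, sub_eq_zero] at h1
    rw [ht hmem, h1]
  have hfl := flow_subst C.R (C.s + 1) hcc (fun t => (u t : EE 2)) θ hθ huc
  refine ⟨(∫ s in (0 : ℝ)..1, θ s) • N, (∫ s in (0 : ℝ)..1, θ s) • Y, ?_⟩
  change flow C.R (C.s + 1) u 1 = flow C.R (C.s + 1) _ 1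
  rw [hfl]
  congr 1
  funext s
  simp only [cc, map_smul, smul_smul]

end Pool.Agent.CutLoci.H75T
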